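import Pool.Agent.Y274.GOW

set_option autoImplicit false

namespace Pool.Agent.Results.MP_0c755a_co.OffDiagonal

open Finset
open scoped Classical

/-- general position: no three distinct points of `S` lie on a line -/
def GenPos (S : Finset (EuclideanSpace ℝ (Fin 2))) : Prop :=
  ∀ a ∈ S, ∀ b ∈ S, ∀ c ∈ S, a ≠ b → a ≠ c → b ≠ c →
    ¬ Collinear ℝ ({a, b, c} : Set (EuclideanSpace ℝ (Fin 2)))

/-- every finite planar set with at least `N` points contains `k` collinear points or `n` points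
in general position -/
def Forces (k n N : ℕ) : Prop :=
  ∀ P : Finset (EuclideanSpace ℝ (Fin 2)), N ≤ P.card →
    (∃ S ⊆ P, S.card = k ∧ Collinear ℝ (S : Set (EuclideanSpace ℝ (Fin 2)))) ∨
      (∃ S ⊆ P, S.card = n ∧ GenPos S)

/-- the least `N` such that every planar set of at least `N` points contains `k` collinear points or
`n` points in general position -/
noncomputable def F (k n : ℕ) : ℕ := sInf {N | Forces k n N}

/-- Gowers's function: the least `N` such that every planar set of at least `N` points contains `n`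
collinear points or `n` points in general position -/
noncomputable def f (n : ℕ) : ℕ := F n n

open Pool.Agent.Helper64.Gow in
lemma upper : ∃ C : ℕ, 1 ≤ C ∧ ∀ k n : ℕ, 1 ≤ n → n ≤ k → Forces k n (C * k * n) := by
  obtain ⟨C, hC1, hC⟩ := Pool.Agent.Y274.GOW.gp_coord
  refine ⟨C, hC1, ?_⟩
  intro k n hn hnk P hP
  by_cases hcol : ∃ S ⊆ P, S.card = k ∧ Collinear ℝ (S : Set (EuclideanSpace ℝ (Fin 2)))
  · exact Or.inl hcol
  right
  push Not at hcol
  have hcard : (P.image cd).card = P.card := card_image_of_injective _ cd_inj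
  obtain ⟨S, hS1, hS2, hS3⟩ := hC k n hn hnk (P.image cd) (by
    intro a' ha' b' hb' hab'
    rw [mem_image] at ha' hb'
    obtain ⟨a, ha, rfl⟩ := ha'
    obtain ⟨b, hb, rfl⟩ := hb'
    have hab : a ≠ b := fun h => hab' (by rw [h])
    have h1 : (P.filter (fun c => col (cd a) (cd b) (cd c))).card < k := by
      by_contra hcon
      push Not at hcon
      obtain ⟨T, hT1, hT2⟩ := exists_subset_card_eq hcon
      apply hcol T (hT1.trans (filter_subset _ _)) hT2
      have h2 : Collinear ℝ ((P.filter (fun c => col (cd a) (cd b) (cd c)) : Finset _) :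
          Set (EuclideanSpace ℝ (Fin 2))) := by
        apply collinear_of_col hab (by
          rw [mem_coe, mem_filter]
          exact ⟨ha, col_self1 _ _⟩)
        intro c hc
        exact (mem_filter.1 (mem_coe.1 hc)).2
      exact h2.subset (by exact_mod_cast hT1)
    have h3 : ((P.image cd).filter (fun c => col (cd a) (cd b) c)).card
        ≤ (P.filter (fun c => col (cd a) (cd b) (cd c))).card := by
      refine le_trans (card_le_card (t := (P.filter (fun c => col (cd a) (cd b) (cd c))).image cd) ?_) card_image_le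
      intro q hq
      rw [mem_filter, mem_image] at hq
      obtain ⟨⟨c, hc, rfl⟩, h⟩ := hq
      exact mem_image_of_mem _ (mem_filter.2 ⟨hc, h⟩)
    exact h3.trans h1.le) (by rw [hcard]; exact hP)
  have hSP : S.card ≤ (P.filter (fun p => cd p ∈ S)).card := by
    refine le_trans (card_le_card (t := (P.filter (fun p => cd p ∈ S)).image cd) ?_) card_image_le
    intro q hq
    have := hS1 hq
    rw [mem_image] at this
    obtain ⟨c, hc, rfl⟩ := this
    exact mem_image_of_mem _ (mem_filter.2 ⟨hc, hq⟩)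
  obtain ⟨T, hT1, hT2⟩ := exists_subset_card_eq (hS3.trans hSP)
  refine ⟨T, hT1.trans (filter_subset _ _), hT2, ?_⟩
  intro a ha b hb c hc hab hac hbc hcoll
  have h1 := (mem_filter.1 (hT1 ha)).2
  have h2 := (mem_filter.1 (hT1 hb)).2
  have h3 := (mem_filter.1 (hT1 hc)).2
  exact hS2 _ h1 _ h2 _ h3 (fun h => hab (cd_inj h)) (fun h => hac (cd_inj h)) (fun h => hbc (cd_inj h))
    (col_of_collinear hcoll)

lemma Forces.mono {k n N M : ℕ} (h : Forces k n N) (hNM : N ≤ M) : Forces k n M :=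
  fun P hP => h P (hNM.trans hP)

noncomputable def gpt (q : ℕ × ℕ) : EuclideanSpace ℝ (Fin 2) := !₂[(q.1 : ℝ), (q.2 : ℝ)]

lemma gpt0 (q : ℕ × ℕ) : gpt q 0 = (q.1 : ℝ) := by simp [gpt]
lemma gpt1 (q : ℕ × ℕ) : gpt q 1 = (q.2 : ℝ) := by simp [gpt]

lemma gpt_inj : Function.Injective gpt := by
  intro p q h
  have h0 := congrArg (fun v : EuclideanSpace ℝ (Fin 2) => v 0) h
  have h1 := congrArg (fun v : EuclideanSpace ℝ (Fin 2) => v 1) h
  simp only [gpt0, gpt1] at h0 h1
  apply Prod.ext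
  · exact_mod_cast h0
  · exact_mod_cast h1

/-- the `w × m` grid -/
noncomputable def grid (w m : ℕ) : Finset (EuclideanSpace ℝ (Fin 2)) := (range w ×ˢ range m).image gpt

lemma grid_card (w m : ℕ) : (grid w m).card = w * m := by
  unfold grid
  rw [card_image_of_injective _ gpt_inj, card_product, card_range, card_range]

lemma grid_coord {w m : ℕ} {p : EuclideanSpace ℝ (Fin 2)} (hp : p ∈ grid w m) :
    p 0 ∈ (range w).image (fun i : ℕ => (i : ℝ)) ∧ p 1 ∈ (range m).image (fun i : ℕ => (i : ℝ)) := by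
  unfold grid at hp
  rw [mem_image] at hp
  obtain ⟨q, hq, rfl⟩ := hp
  rw [mem_product] at hq
  rw [gpt0, gpt1]
  exact ⟨mem_image_of_mem _ hq.1, mem_image_of_mem _ hq.2⟩

lemma grid_collinear {w m : ℕ} (hmw : m ≤ w) {S : Finset (EuclideanSpace ℝ (Fin 2))} (hS : S ⊆ grid w m)
    (hc : Collinear ℝ (S : Set (EuclideanSpace ℝ (Fin 2)))) : S.card ≤ w := by
  rcases S.eq_empty_or_nonempty with h0 | ⟨p0, hp0⟩
  · rw [h0]; simp
  rw [collinear_iff_of_mem (p₀ := p0) (by exact_mod_cast hp0)] at hc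
  obtain ⟨v, hv⟩ := hc
  have him : ∀ j : ℕ, ((range j).image (fun i : ℕ => (i : ℝ))).card ≤ j := by
    intro j
    refine card_image_le.trans ?_
    rw [card_range]
  by_cases hv0 : v 0 = 0
  · refine le_trans (card_le_card_of_injOn (fun p => p 1) ?_ ?_) ((him m).trans hmw)
    · intro p hp
      exact (grid_coord (hS (mem_coe.1 hp))).2
    · intro p hp q hq hpq
      simp only at hpq
      obtain ⟨r, hr⟩ := hv p hp
      obtain ⟨s, hs⟩ := hv q hq
      ext i
      fin_cases i
      · simp only [Fin.zero_eta]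
        rw [hr, hs]
        simp [hv0]
      · exact hpq
  · refine le_trans (card_le_card_of_injOn (fun p => p 0) ?_ ?_) (him w)
    · intro p hp
      exact (grid_coord (hS (mem_coe.1 hp))).1
    · intro p hp q hq hpq
      simp only at hpq
      obtain ⟨r, hr⟩ := hv p hp
      obtain ⟨s, hs⟩ := hv q hq
      have e1 : p 0 = r * v 0 + p0 0 := by rw [hr]; simp
      have e2 : q 0 = s * v 0 + p0 0 := by rw [hs]; simp
      have e3 : r = s := by
        have : (r - s) * v 0 = 0 := by linarith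
        rcases mul_eq_zero.1 this with h | h
        · linarith
        · exact absurd h hv0
      rw [hr, hs, e3]

open Pool.Agent.Helper64.Gow in
lemma grid_genpos {w m : ℕ} {S : Finset (EuclideanSpace ℝ (Fin 2))} (hS : S ⊆ grid w m)
    (hc : GenPos S) : S.card ≤ 2 * m := by
  have h1 : S.card = ∑ y ∈ (range m).image (fun i : ℕ => (i : ℝ)), (S.filter (fun p => p 1 = y)).card :=
    card_eq_sum_card_fiberwise (fun p hp => (grid_coord (hS (mem_coe.1 hp))).2)
  rw [h1]
  calc ∑ y ∈ (range m).image (fun i : ℕ => (i : ℝ)), (S.filter (fun p => p 1 = y)).card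
      ≤ ∑ y ∈ (range m).image (fun i : ℕ => (i : ℝ)), 2 := by
        apply sum_le_sum
        intro y _
        by_contra hcon
        push Not at hcon
        obtain ⟨a, ha, b, hb, c, hc', hab, hac, hbc⟩ := two_lt_card.1 hcon
        rw [mem_filter] at ha hb hc'
        apply hc a ha.1 b hb.1 c hc'.1 hab hac hbc
        apply collinear_of_col hab (by simp)
        intro z hz
        simp only [Set.mem_insert_iff, Set.mem_singleton_iff] at hz
        have hz1 : z 1 = y := by
          rcases hz with rfl | rfl | rfl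
          · exact ha.2
          · exact hb.2
          · exact hc'.2
        unfold col cd
        simp only
        rw [ha.2, hb.2, hz1]
        ring
    _ ≤ 2 * m := by
        rw [sum_const, smul_eq_mul, mul_comm]
        apply Nat.mul_le_mul_left
        refine card_image_le.trans ?_
        rw [card_range]

lemma lower {k n : ℕ} (hn : 1 ≤ n) (hnk : n ≤ k) : ¬ Forces k n ((k - 1) * ((n - 1) / 2)) := by
  intro h
  set m := (n - 1) / 2 with hm
  rcases h (grid (k - 1) m) (by rw [grid_card]) with ⟨S, hS, hSn, hc⟩ | ⟨S, hS, hSn, hc⟩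
  · have := grid_collinear (by omega) hS hc
    omega
  · have := grid_genpos hS hc
    omega

/-- both bounds for the off-diagonal function -/
lemma both : ∃ C : ℕ, 1 ≤ C ∧ (∀ k n : ℕ, 1 ≤ n → n ≤ k → Forces k n (C * k * n)) ∧
    ∀ k n : ℕ, 3 ≤ n → n ≤ k → Forces k n (F k n) ∧ (1 / 9 : ℝ) * (k * n) ≤ (F k n : ℝ) ∧
      (F k n : ℝ) ≤ (C : ℝ) * (k * n) := by
  obtain ⟨C, hC1, hC⟩ := upper
  refine ⟨C, hC1, hC, ?_⟩
  intro k n hn hnk
  have hne : {N | Forces k n N}.Nonempty := ⟨C * k * n, hC k n (by omega) hnk⟩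
  have hf : Forces k n (F k n) := Nat.sInf_mem hne
  refine ⟨hf, ?_, ?_⟩
  · have h1 : (k - 1) * ((n - 1) / 2) < F k n := by
      by_contra hcon
      push Not at hcon
      exact lower (by omega) hnk (hf.mono hcon)
    have h2 : n ≤ 6 * ((n - 1) / 2) := by omega
    have h3 : 2 * k ≤ 3 * (k - 1) := by omega
    have h4 : 2 * (k * n) ≤ 18 * F k n := by
      calc 2 * (k * n) = (2 * k) * n := by ring
        _ ≤ (3 * (k - 1)) * (6 * ((n - 1) / 2)) := Nat.mul_le_mul h3 h2
        _ = 18 * ((k - 1) * ((n - 1) / 2)) := by ring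
        _ ≤ 18 * F k n := Nat.mul_le_mul_left _ h1.le
    have h5 : 2 * ((k : ℝ) * n) ≤ 18 * (F k n : ℝ) := by exact_mod_cast h4
    linarith
  · have h1 : F k n ≤ C * k * n := Nat.sInf_le (hC k n (by omega) hnk)
    have h2 : (F k n : ℝ) ≤ (C : ℝ) * k * n := by exact_mod_cast h1
    calc (F k n : ℝ) ≤ (C : ℝ) * k * n := h2
      _ = (C : ℝ) * (k * n) := by ring

/-- every set of `N` points with at most `l` on a line has `≫ N / √(N + l²)` in general position -/
lemma subset_form {C : ℕ} (hC1 : 1 ≤ C) (hC : ∀ k n : ℕ, 1 ≤ n → n ≤ k → Forces k n (C * k * n))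
    (P : Finset (EuclideanSpace ℝ (Fin 2))) (l : ℕ) (hl : 1 ≤ l)
    (hP : ∀ T ⊆ P, Collinear ℝ (T : Set (EuclideanSpace ℝ (Fin 2))) → T.card ≤ l) :
    ∃ S ⊆ P, GenPos S ∧ 1 / (4 * (C : ℝ)) * ((P.card : ℝ) / √((P.card : ℝ) + (l : ℝ) ^ 2)) ≤ (S.card : ℝ) := by
  rcases P.eq_empty_or_nonempty with h0 | ⟨p0, hp0⟩
  · refine ⟨∅, empty_subset _, ?_, ?_⟩
    · intro a ha
      simp at ha
    · rw [h0]; simp
  have hN : (1 : ℝ) ≤ (P.card : ℝ) := by exact_mod_cast card_pos.2 ⟨p0, hp0⟩
  have hCR : (1 : ℝ) ≤ (C : ℝ) := by exact_mod_cast hC1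
  have hlR : (1 : ℝ) ≤ (l : ℝ) := by exact_mod_cast hl
  set N : ℝ := (P.card : ℝ) with hNdef
  set R : ℝ := √(N + (l : ℝ) ^ 2) with hR
  set c : ℝ := 1 / (4 * (C : ℝ)) with hc
  have hcpos : 0 < c := by rw [hc]; positivity
  have h4 : 4 * (C : ℝ) * c = 1 := by rw [hc]; field_simp
  have hc1 : c ≤ 1 := by nlinarith
  have hRpos : 0 < R := Real.sqrt_pos.2 (by positivity)
  have hRsq : R ^ 2 = N + (l : ℝ) ^ 2 := Real.sq_sqrt (by positivity)
  set x : ℝ := N / R with hx
  have hxpos : 0 < x := div_pos (by linarith) hRpos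
  have hxR : x * R = N := by rw [hx]; field_simp
  -- `x² ≤ N` and `l x ≤ N`
  have hlR' : (l : ℝ) ≤ R := by
    rw [hR]
    apply Real.le_sqrt_of_sq_le
    linarith
  have hxl : (l : ℝ) * x ≤ N := by
    calc (l : ℝ) * x ≤ R * x := mul_le_mul_of_nonneg_right hlR' hxpos.le
      _ = N := by rw [mul_comm]; exact hxR
  have hxx : x ^ 2 ≤ N := by
    have h1 : x ^ 2 * R ^ 2 = N ^ 2 := by rw [← mul_pow, hxR]
    have h2 : N ≤ R ^ 2 := by rw [hRsq]; nlinarith [sq_nonneg (l : ℝ)]
    have h3 : x ^ 2 * N ≤ N * N := by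
      calc x ^ 2 * N ≤ x ^ 2 * R ^ 2 := mul_le_mul_of_nonneg_left h2 (sq_nonneg _)
        _ = N * N := by rw [h1]; ring
    exact le_of_mul_le_mul_right h3 (by linarith)
  rcases le_or_gt (c * x) 1 with hsmall | hbig
  · refine ⟨{p0}, singleton_subset_iff.2 hp0, ?_, ?_⟩
    · intro a ha b hb _ _ hab
      rw [mem_singleton] at ha hb
      exact absurd (ha.trans hb.symm) hab
    · rw [card_singleton]
      push_cast
      exact hsmall
  · set n := ⌈c * x⌉₊ with hn
    have hn1 : c * x ≤ (n : ℝ) := Nat.le_ceil _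
    have hn2 : (n : ℝ) < c * x + 1 := Nat.ceil_lt_add_one (by positivity)
    have hn3 : (n : ℝ) ≤ 2 * (c * x) := by linarith
    have hn4 : 1 ≤ n := by
      have : (0 : ℝ) < (n : ℝ) := by linarith
      exact_mod_cast this
    set k := max n (l + 1) with hk
    have hkn : C * k * n ≤ P.card := by
      have h1 : (C : ℝ) * (n : ℝ) * n ≤ N := by
        have h2 : (n : ℝ) * n ≤ (2 * (c * x)) * (2 * (c * x)) :=
          mul_le_mul hn3 hn3 (Nat.cast_nonneg _) (by positivity)
        calc (C : ℝ) * (n : ℝ) * n = (C : ℝ) * ((n : ℝ) * n) := by ring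
          _ ≤ (C : ℝ) * ((2 * (c * x)) * (2 * (c * x))) := mul_le_mul_of_nonneg_left h2 (by positivity)
          _ = (4 * (C : ℝ) * c) * (c * x ^ 2) := by ring
          _ = c * x ^ 2 := by rw [h4, one_mul]
          _ ≤ 1 * x ^ 2 := mul_le_mul_of_nonneg_right hc1 (sq_nonneg _)
          _ ≤ N := by rw [one_mul]; exact hxx
      have h1' : (C : ℝ) * ((l : ℝ) + 1) * n ≤ N := by
        have h2 : ((l : ℝ) + 1) * n ≤ (2 * (l : ℝ)) * (2 * (c * x)) :=
          mul_le_mul (by linarith) hn3 (Nat.cast_nonneg _) (by positivity)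
        calc (C : ℝ) * ((l : ℝ) + 1) * n = (C : ℝ) * (((l : ℝ) + 1) * n) := by ring
          _ ≤ (C : ℝ) * ((2 * (l : ℝ)) * (2 * (c * x))) := mul_le_mul_of_nonneg_left h2 (by positivity)
          _ = (4 * (C : ℝ) * c) * ((l : ℝ) * x) := by ring
          _ = (l : ℝ) * x := by rw [h4, one_mul]
          _ ≤ N := hxl
      rcases le_total n (l + 1) with h | h
      · rw [hk, max_eq_right h]
        have : ((C * (l + 1) * n : ℕ) : ℝ) ≤ ((P.card : ℕ) : ℝ) := by
          push_cast
          exact h1'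
        exact_mod_cast this
      · rw [hk, max_eq_left h]
        have : ((C * n * n : ℕ) : ℝ) ≤ ((P.card : ℕ) : ℝ) := by
          push_cast
          exact h1
        exact_mod_cast this
    rcases hC k n hn4 (le_max_left _ _) P hkn with ⟨S, hS, hSk, hcol⟩ | ⟨S, hS, hSn, hgp⟩
    · exfalso
      have h1 := hP S hS hcol
      have h2 : l + 1 ≤ k := le_max_right _ _
      omega
    · refine ⟨S, hS, hgp, ?_⟩
      rw [hSn]
      exact hn1

/-- **Gowers's problem, order of magnitude, with the off-diagonal function and the bound for all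
sets.** (1) `f n` is of order exactly `n ^ 2`. (2) For `3 ≤ n ≤ k` the least number of points forcing
`k` collinear points or `n` points in general position is of order exactly `k n`. (3) Every set of
`N` points with at most `l` on a line contains `≫ N / √(N + l²)` points in general position. -/
theorem result : ∃ c C : ℝ, 0 < c ∧ 0 < C ∧
    (∀ n : ℕ, 3 ≤ n →
      Forces n n (f n) ∧ c * (n : ℝ) ^ 2 ≤ (f n : ℝ) ∧ (f n : ℝ) ≤ C * (n : ℝ) ^ 2) ∧
    (∀ k n : ℕ, 3 ≤ n → n ≤ k →
      Forces k n (F k n) ∧ c * ((k : ℝ) * n) ≤ (F k n : ℝ) ∧ (F k n : ℝ) ≤ C * ((k : ℝ) * n)) ∧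
    (∀ (P : Finset (EuclideanSpace ℝ (Fin 2))) (l : ℕ), 1 ≤ l →
      (∀ T ⊆ P, Collinear ℝ (T : Set (EuclideanSpace ℝ (Fin 2))) → T.card ≤ l) →
      ∃ S ⊆ P, GenPos S ∧ c * ((P.card : ℝ) / √((P.card : ℝ) + (l : ℝ) ^ 2)) ≤ (S.card : ℝ)) := by
  obtain ⟨C, hC1, hC, hF⟩ := both
  have hCR : (1 : ℝ) ≤ (C : ℝ) := by exact_mod_cast hC1
  have hcpos : (0 : ℝ) < 1 / (9 * (C : ℝ)) := by positivity
  have hc9 : 1 / (9 * (C : ℝ)) ≤ 1 / 9 := by
    apply one_div_le_one_div_of_le (by norm_num)
    linarith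
  have hc4 : 1 / (9 * (C : ℝ)) ≤ 1 / (4 * (C : ℝ)) := by
    apply one_div_le_one_div_of_le (by positivity)
    linarith
  have hall : ∀ k n : ℕ, 3 ≤ n → n ≤ k →
      Forces k n (F k n) ∧ 1 / (9 * (C : ℝ)) * ((k : ℝ) * n) ≤ (F k n : ℝ) ∧
        (F k n : ℝ) ≤ (C : ℝ) * ((k : ℝ) * n) := by
    intro k n hn hnk
    obtain ⟨h1, h2, h3⟩ := hF k n hn hnk
    refine ⟨h1, le_trans ?_ h2, h3⟩
    exact mul_le_mul_of_nonneg_right hc9 (by positivity)
  refine ⟨1 / (9 * (C : ℝ)), (C : ℝ), hcpos, by linarith, ?_, hall, ?_⟩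
  · intro n hn
    have h := hall n n hn le_rfl
    unfold f
    rw [sq]
    exact h
  · intro P l hl hP
    obtain ⟨S, hS, hgp, hcard⟩ := subset_form hC1 hC P l hl hP
    refine ⟨S, hS, hgp, le_trans ?_ hcard⟩
    exact mul_le_mul_of_nonneg_right hc4 (by positivity)

end Pool.Agent.Results.MP_0c755a_co.OffDiagonal
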